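import Pool.Agent.W2helper8.ZQ.Stm

/-!
# Project ZQ, piece FIXA

The weighted second moment of `AA b a N` for fixed `N`, from the fixed twists.
-/

set_option autoImplicit false

namespace Pool.Agent.W2helper59.ZQ

open Finset Filter Topology MeasureTheory Complex
open Pool.Agent.H306R2 (dv)
open Pool.Agent.W2helper8.ZQ

theorem p_fixa (h1 : S_FIX) (h2 : S_EXPJ) : S_FIXA := by
  intro b a C N ha hC ε hε
  set c : ℕ → ℝ := fun n => dv b n / n with hc
  set A : ℝ := ∑ m ∈ Ioc 0 N, ∑ n ∈ Ioc 0 N, |c m * c n| with hA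
  have hA0 : 0 ≤ A := Finset.sum_nonneg fun m _ => Finset.sum_nonneg fun n _ => abs_nonneg _
  have hδ : 0 < ε / (1 + A) := by positivity
  have hev : ∀ᶠ T : ℝ in atTop, ∀ m ∈ Ioc 0 N, ∀ n ∈ Ioc 0 N, ∀ (κ : ℝ) (w : ℝ → ℝ),
      Wt C κ T w → ‖J w T (Real.log (((n : ℝ) / m) ^ a)) -
        ((κ * cc (((n : ℝ) / m) ^ a) * (T * Real.log T) : ℝ) : ℂ)‖ ≤
          ε / (1 + A) * (T * Real.log T) := by
    rw [Filter.eventually_all_finset]
    intro m hm
    rw [Filter.eventually_all_finset]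
    intro n hn
    have hm0 : (0 : ℝ) < m := by exact_mod_cast (Finset.mem_Ioc.mp hm).1
    have hn0 : (0 : ℝ) < n := by exact_mod_cast (Finset.mem_Ioc.mp hn).1
    exact h1 C (((n : ℝ) / m) ^ a) hC (by positivity) (ε / (1 + A)) hδ
  filter_upwards [hev, eventually_ge_atTop (2 : ℝ)] with T hT hT2 κ w hw
  have hT0 : 0 < T := by linarith
  have hL : 0 ≤ T * Real.log T := mul_nonneg hT0.le (Real.log_nonneg (by linarith))
  have hlog : ∀ m ∈ Ioc 0 N, ∀ n ∈ Ioc 0 N,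
      Real.log (((n : ℝ) / m) ^ a) = a * (Real.log n - Real.log m) := by
    intro m hm n hn
    have hm0 : (0 : ℝ) < m := by exact_mod_cast (Finset.mem_Ioc.mp hm).1
    have hn0 : (0 : ℝ) < n := by exact_mod_cast (Finset.mem_Ioc.mp hn).1
    rw [Real.log_rpow (by positivity), Real.log_div hn0.ne' hm0.ne']
  have hAA : ∀ t : ℝ, AA b a N t = ∑ n ∈ Ioc 0 N, (c n : ℂ) * e (-(a * Real.log n * t)) := by
    intro t
    rfl
  have hint : ((∫ t in (T / 2)..(3 * T), w t * Z2 t * ‖AA b a N t‖ ^ 2 : ℝ) : ℂ) =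
      ∑ m ∈ Ioc 0 N, ∑ n ∈ Ioc 0 N, ((c m * c n : ℝ) : ℂ) *
        J w T (a * (Real.log n - Real.log m)) := by
    rw [← h2 a T w 0 N c hT0 hw.cont]
    congr 1
  have hDD : (κ * DD b a N * (T * Real.log T) : ℝ) =
      ∑ m ∈ Ioc 0 N, ∑ n ∈ Ioc 0 N, c m * c n *
        (κ * cc (((n : ℝ) / m) ^ a) * (T * Real.log T)) := by
    have h3 : DD b a N = ∑ m ∈ Ioc 0 N, ∑ n ∈ Ioc 0 N, c m * c n * cc (((n : ℝ) / m) ^ a) := by
      unfold DD
      rw [Finset.sum_comm]
      refine Finset.sum_congr rfl fun m hm => Finset.sum_congr rfl fun n hn => ?_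
      simp only [hc]
      congr 1
      rw [div_mul_div_comm, mul_comm (dv b n), mul_comm (n : ℝ)]
    rw [h3, Finset.mul_sum, Finset.sum_mul]
    refine Finset.sum_congr rfl fun m _ => ?_
    rw [Finset.mul_sum, Finset.sum_mul]
    refine Finset.sum_congr rfl fun n _ => ?_
    ring
  have hcomplex : (((∫ t in (T / 2)..(3 * T), w t * Z2 t * ‖AA b a N t‖ ^ 2) -
      κ * DD b a N * (T * Real.log T) : ℝ) : ℂ) =
      ∑ m ∈ Ioc 0 N, ∑ n ∈ Ioc 0 N, ((c m * c n : ℝ) : ℂ) *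
        (J w T (Real.log (((n : ℝ) / m) ^ a)) -
          ((κ * cc (((n : ℝ) / m) ^ a) * (T * Real.log T) : ℝ) : ℂ)) := by
    rw [Complex.ofReal_sub, hint, hDD]
    push_cast
    rw [← Finset.sum_sub_distrib]
    refine Finset.sum_congr rfl fun m hm => ?_
    rw [← Finset.sum_sub_distrib]
    refine Finset.sum_congr rfl fun n hn => ?_
    rw [hlog m hm n hn]
    ring
  have hnorm : |(∫ t in (T / 2)..(3 * T), w t * Z2 t * ‖AA b a N t‖ ^ 2) -
      κ * DD b a N * (T * Real.log T)| =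
      ‖(((∫ t in (T / 2)..(3 * T), w t * Z2 t * ‖AA b a N t‖ ^ 2) -
      κ * DD b a N * (T * Real.log T) : ℝ) : ℂ)‖ := by
    rw [Complex.norm_real, Real.norm_eq_abs]
  rw [hnorm, hcomplex]
  calc ‖∑ m ∈ Ioc 0 N, ∑ n ∈ Ioc 0 N, ((c m * c n : ℝ) : ℂ) *
        (J w T (Real.log (((n : ℝ) / m) ^ a)) -
          ((κ * cc (((n : ℝ) / m) ^ a) * (T * Real.log T) : ℝ) : ℂ))‖
      ≤ ∑ m ∈ Ioc 0 N, ∑ n ∈ Ioc 0 N, |c m * c n| * (ε / (1 + A) * (T * Real.log T)) := by
        refine norm_sum_le_of_le _ fun m hm => norm_sum_le_of_le _ fun n hn => ?_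
        rw [norm_mul, Complex.norm_real, Real.norm_eq_abs]
        exact mul_le_mul_of_nonneg_left (hT m hm n hn κ w hw) (abs_nonneg _)
    _ = A * (ε / (1 + A) * (T * Real.log T)) := by
        rw [hA, Finset.sum_mul]
        refine Finset.sum_congr rfl fun m _ => ?_
        rw [Finset.sum_mul]
    _ ≤ ε * (T * Real.log T) := by
        have h4 : A * (ε / (1 + A)) ≤ ε := by
          rw [mul_div_assoc', div_le_iff₀ (by positivity)]
          nlinarith
        calc A * (ε / (1 + A) * (T * Real.log T)) = A * (ε / (1 + A)) * (T * Real.log T) := by ring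
          _ ≤ ε * (T * Real.log T) := mul_le_mul_of_nonneg_right h4 hL

end Pool.Agent.W2helper59.ZQ
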