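import Pool.Agent.W2helper8.ZQ.Stm
import Pool.Agent.TH158.FM.Main

/-!
# Project ZQ, piece M4

The fourth moment of zeta on `[T/2, 3T]`.
-/

set_option autoImplicit false

namespace Pool.Agent.W2helper59.ZQ

open Finset Filter Topology MeasureTheory Complex
open Pool.Agent.W2helper8.ZQ

theorem p_m4 : S_M4 := by
  refine ⟨40, by norm_num, ?_⟩
  filter_upwards [eventually_ge_atTop (1000 : ℝ)] with T hT
  have hT0 : 0 < T := by linarith
  have h1 := Pool.Agent.TH158.FM.fourth_all (3 * T) (by linarith)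
  have hpt : ∀ t : ℝ, ‖riemannZeta (Pool.Agent.TH158.FM.pt (1 / 2) t)‖ ^ 4 = Z2 t ^ 2 := by
    intro t
    unfold Z2 Pool.Agent.TH158.FM.pt
    rw [← pow_mul]
    norm_num
  simp only [hpt] at h1
  have hc : Continuous fun t : ℝ => Z2 t ^ 2 := Z2_cont.pow 2
  have h2 : ∫ t in (T / 2)..(3 * T), Z2 t ^ 2 ≤ ∫ t in (0 : ℝ)..(3 * T), Z2 t ^ 2 := by
    have h3 := intervalIntegral.integral_add_adjacent_intervals
      (hc.intervalIntegrable (μ := volume) 0 (T / 2)) (hc.intervalIntegrable (μ := volume) (T / 2) (3 * T))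
    have h4 : 0 ≤ ∫ t in (0 : ℝ)..(T / 2), Z2 t ^ 2 :=
      intervalIntegral.integral_nonneg (by linarith) fun t _ => by positivity
    linarith
  have hlog : Real.log (3 * T) ≤ 2 * Real.log T := by
    rw [Real.log_mul (by norm_num) hT0.ne']
    have : Real.log 3 ≤ Real.log T := Real.log_le_log (by norm_num) (by linarith)
    linarith
  have hl0 : 0 ≤ Real.log (3 * T) := Real.log_nonneg (by linarith)
  have h5 : Real.log (3 * T) ^ 4 ≤ (2 * Real.log T) ^ 4 := pow_le_pow_left₀ hl0 hlog 4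
  have h6 : 0 ≤ Real.log T ^ 4 := by positivity
  calc ∫ t in (T / 2)..(3 * T), Z2 t ^ 2 ≤ 4 / 5 * (3 * T * Real.log (3 * T) ^ 4) := h2.trans h1
    _ ≤ 4 / 5 * (3 * T * (2 * Real.log T) ^ 4) := by gcongr
    _ ≤ 40 * (T * Real.log T ^ 4) := by nlinarith [mul_nonneg hT0.le h6]

end Pool.Agent.W2helper59.ZQ
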